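import Pool.Agent.helper9.TH.Spec

namespace Pool.Agent.helper41.TH

open Pool.Agent.helper9.TH

universe u

/-- The conjugation action on a normal subgroup `N`, written additively. -/
noncomputable def conjE {T : Type u} [Group T] (N : Subgroup T) [N.Normal] :
    T →* AddMonoid.End (Additive N) where
  toFun g := MonoidHom.toAdditive (MulAut.conjNormal g : MulAut N).toMonoidHom
  map_one' := by
    rw [map_one]
    rfl
  map_mul' g h := by
    rw [map_mul]
    rfl

theorem conjE_apply {T : Type u} [Group T] (N : Subgroup T) [N.Normal] (g : T)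
    (x : Additive N) : ((Additive.toMul (conjE N g x) : N) : T) = g * (Additive.toMul x : N) * g⁻¹ :=
  MulAut.conjNormal_apply g (Additive.toMul x : N)

theorem KM1 (hLA : LA_stmt.{u}) : KM1_stmt.{u} := by
  intro p r s T _ _ N Y t hp hr hs hrs hN hEA hY h1 h2 h3
  have hp0 : 0 < p := hp.pos
  letI : CommGroup N := { (inferInstance : Group N) with
    mul_comm := fun a b => Subtype.ext (hEA.1 a a.2 b b.2) }
  let ρ : T →* (AddMonoid.End (Additive N))ˣ := MonoidHom.toHomUnits (conjE N)
  have hρ : ∀ g : T, ((ρ g : (AddMonoid.End (Additive N))ˣ) : AddMonoid.End (Additive N)) = conjE N g :=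
    fun g => rfl
  -- the sum condition
  have hsum : ∀ w : T, (∀ v ∈ N, (w * v) ^ p = 1) →
      ∑ i ∈ Finset.range p, (conjE N w) ^ i = 0 := by
    intro w hw
    have hwp : w ^ p = 1 := by simpa using hw 1 N.one_mem
    ext x
    have key : ∀ n : ℕ, ((Additive.toMul ((∑ i ∈ Finset.range n, (conjE N w) ^ i) x) : N) : T) * w ^ n
        = (((Additive.toMul x : N) : T) * w) ^ n := by
      intro n
      induction n with
      | zero => simp
      | succ n ih =>
        rw [Finset.sum_range_succ]
        change ((Additive.toMul ((∑ i ∈ Finset.range n, (conjE N w) ^ i) x + ((conjE N w) ^ n) x) : N) : T)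
          * w ^ (n + 1) = _
        rw [toMul_add, Subgroup.coe_mul, ← map_pow, conjE_apply, pow_succ (_ * w) n, ← ih]
        group
    have h4 := key p
    have h5 : (((Additive.toMul x : N) : T) * w) ^ p = 1 := by
      have h6 : ((Additive.toMul x : N) : T) * w = w⁻¹ * (w * ((Additive.toMul x : N) : T)) * w := by group
      have h7 : (w⁻¹ * (w * ((Additive.toMul x : N) : T)) * w) ^ p
          = w⁻¹ * (w * ((Additive.toMul x : N) : T)) ^ p * w := by
        have := conj_pow (i := p) (a := w⁻¹) (b := w * ((Additive.toMul x : N) : T))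
        simpa using this
      rw [h6, h7, hw _ (Additive.toMul x : N).2]
      group
    rw [hwp, mul_one, h5] at h4
    have h8 : (Additive.toMul ((∑ i ∈ Finset.range p, (conjE N w) ^ i) x) : N) = 1 := Subtype.ext h4
    have h9 : (∑ i ∈ Finset.range p, (conjE N w) ^ i) x = 0 := by
      apply Additive.toMul.injective
      simpa using h8
    simpa using congrArg (fun z : Additive N => ((Additive.toMul z : N) : T)) h9
  have hbot : Y.map ρ = ⊥ := by
    haveI hfin : Finite (Y.map ρ) := by
      have h20 : ((Y.map ρ : Subgroup (AddMonoid.End (Additive N))ˣ) : Set (AddMonoid.End (Additive N))ˣ).Finite := by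
        rw [Subgroup.coe_map]
        exact (Set.toFinite (Y : Set T)).image _
      exact h20.to_subtype
    apply hLA p (AddMonoid.End (Additive N)) (ρ t) (Y.map ρ) hp
    · rintro _ ⟨y, hy, rfl⟩
      exact ⟨t * y * t⁻¹, h1 y hy, by simp⟩
    · rintro _ ⟨y, hy, rfl⟩
      exact ⟨t⁻¹ * y * t, h2 y hy, by simp⟩
    · intro e he
      haveI : Fact r.Prime := ⟨hr⟩
      obtain ⟨n, hn⟩ := (IsPGroup.iff_card (p := r)).1 (hY.map ρ)
      ext x
      have hx : (Nat.card (Y.map ρ)) • (e x) = 0 := by
        have := congrArg (fun f : AddMonoid.End (Additive N) => f x) he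
        simpa [AddMonoid.End.natCast_apply] using this
      have hx2 : s • (e x) = 0 := by
        apply Additive.toMul.injective
        rw [toMul_nsmul, toMul_zero]
        exact Subtype.ext (by simpa using hEA.2 _ (Additive.toMul (e x) : N).2)
      have hcop : Nat.Coprime (Nat.card (Y.map ρ)) s := by
        rw [hn]
        exact Nat.Coprime.pow_left n ((Nat.coprime_primes hr hs).2 hrs)
      have h10 : addOrderOf (e x) ∣ 1 := by
        rw [← hcop.gcd_eq_one]
        exact Nat.dvd_gcd (addOrderOf_dvd_of_nsmul_eq_zero hx) (addOrderOf_dvd_of_nsmul_eq_zero hx2)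
      have h11 : addOrderOf (e x) = 1 := Nat.dvd_one.1 h10
      have h12 : e x = 0 := AddMonoid.addOrderOf_eq_one_iff.1 h11
      simp [h12]
    · rintro _ ⟨y, hy, rfl⟩
      have h13 : ∀ i : ℕ, (((ρ t * ρ y : (AddMonoid.End (Additive N))ˣ) : AddMonoid.End (Additive N)) ^ i)
          = (conjE N (t * y)) ^ i := by
        intro i
        rw [← map_mul, hρ]
      rw [Finset.sum_congr rfl (fun i _ => h13 i)]
      exact hsum (t * y) (h3 y hy)
  intro y hy v hv
  have h14 : ρ y = 1 := by
    have : ρ y ∈ Y.map ρ := ⟨y, hy, rfl⟩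
    rw [hbot] at this
    exact this
  have h15 : conjE N y = 1 := by
    rw [← hρ, h14]; rfl
  have h16 := conjE_apply N y (Additive.ofMul (⟨v, hv⟩ : N))
  rw [h15] at h16
  simp at h16
  rw [eq_mul_inv_iff_mul_eq] at h16
  exact h16.symm

end Pool.Agent.helper41.TH
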